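import Pool.Agent.KrdSw.Main
import Pool.Agent.Krd.RMd

/-!
# From the code in coordinates to the set `S` on `F × F_2`
-/

set_option autoImplicit false
set_option linter.unusedSectionVars false
set_option linter.style.haveILetI false

namespace Pool.Agent.KrdSw

open Pool.Agent.Krd

section comp

variable {V W : Type*} [AddCommGroup V] [Module (ZMod 2) V] [AddCommGroup W] [Module (ZMod 2) W]

theorem D_comp (e : V ≃ₗ[ZMod 2] W) (g : W → ZMod 2) (a : V) :
    D a (fun x => g (e x)) = fun x => D (e a) g (e x) := by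
  funext x
  simp only [D, map_add]

theorem aff_comp {e : V ≃ₗ[ZMod 2] W} {g : W → ZMod 2} (hg : Aff g) : Aff fun x => g (e x) := by
  intro a b x
  rw [D_comp, D_comp]
  exact hg _ _ _

theorem quad_comp {e : V ≃ₗ[ZMod 2] W} {g : W → ZMod 2} (hg : Quad g) : Quad fun x => g (e x) := by
  intro a b c x
  rw [D_comp, D_comp, D_comp]
  exact hg _ _ _ _

theorem sg_eq' (t : ZMod 2) : sg t = 1 - 2 * (if t ≠ 0 then 1 else 0) := by
  revert t
  decide

theorem sum_sg_dist' {V : Type*} [Fintype V] (f g : V → ZMod 2) :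
    ∑ x, sg (f x + g x) = Fintype.card V - 2 * (hammingDist f g : ℤ) := by
  simp_rw [sg_eq']
  rw [Finset.sum_sub_distrib, ← Finset.mul_sum, Finset.sum_boole, Finset.sum_const,
    Finset.card_univ, nsmul_eq_mul, mul_one]
  congr 3
  unfold hammingDist
  congr 1
  apply Finset.filter_congr
  intro x _
  have hz : ∀ s t : ZMod 2, s + t ≠ 0 ↔ s ≠ t := by decide
  exact hz _ _

end comp

theorem main {m : ℕ} (hm : 2 ≤ m) {F : Type*} [Field F] [Finite F] [Algebra (ZMod 2) F]
    (e : (Fin (2 * m) → ZMod 2) ≃ₗ[ZMod 2] F × ZMod 2)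
    (C : Set ((Fin (2 * m) → ZMod 2) → ZMod 2))
    (hcard : C.ncard = 2 ^ (4 * m)) (hcompl : ∀ f ∈ C, (fun x => f x + 1) ∈ C)
    (hdist : ∀ f ∈ C, ∀ g ∈ C, f ≠ g → 2 ^ (2 * m - 1) - 2 ^ (m - 1) ≤ hammingDist f g)
    (q h : (Fin (2 * m) → ZMod 2) → ZMod 2)
    (K : Set ((Fin (2 * m) → ZMod 2) → ZMod 2))
    (hK : ∀ f, f ∈ K ↔ ∃ u : F, f + (fun x => kf m u (e x)) ∈ RM 1 (2 * m))
    (hU : ∀ f ∈ C, f + q ∈ K → ∀ a ∈ RM 1 (2 * m), f + a ∈ C)
    (hh : ∀ f ∈ C, f + q ∈ K ∨ f + h ∈ RM 2 (2 * m)) :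
    (∀ f, f ∈ C ↔ f + q ∈ K) ∨ ∀ f ∈ C, f + h ∈ RM 2 (2 * m) := by
  classical
  haveI : Fintype F := Fintype.ofFinite F
  have hV : Fintype.card (F × ZMod 2) = 2 ^ (2 * m) := by
    rw [← Fintype.card_congr e.toEquiv]
    simp
  have hk : Module.finrank (ZMod 2) F = 2 * m - 1 := by
    have h1 := e.finrank_eq
    rw [Module.finrank_prod, Module.finrank_self, Module.finrank_fin_fun] at h1
    omega
  have hqq : ∀ f : (Fin (2 * m) → ZMod 2) → ZMod 2, f + q + q = f := by
    intro f
    rw [add_assoc, fun_add_self, add_zero]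
  let P : (F × ZMod 2 → ZMod 2) → ((Fin (2 * m) → ZMod 2) → ZMod 2) :=
    fun g => (fun x => g (e x)) + q
  have hPinj : Function.Injective P := by
    intro g g' hgg
    funext z
    have h1 := congrFun (add_right_cancel hgg) (e.symm z)
    simpa using h1
  have hPsurj : ∀ f, ∃ g, P g = f := by
    intro f
    refine ⟨fun z => (f + q) (e.symm z), ?_⟩
    funext x
    have := z2_add_self (q x)
    simp only [P, Pi.add_apply, LinearEquiv.symm_apply_apply]
    linear_combination this
  let S : Finset (F × ZMod 2 → ZMod 2) := Finset.univ.filter fun g => P g ∈ C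
  have hmemS : ∀ g, g ∈ S ↔ P g ∈ C := by
    intro g
    simp [S]
  have hPadd : ∀ g g', P (g + g') = P g + fun x => g' (e x) := by
    intro g g'
    funext x
    simp only [P, Pi.add_apply]
    ring
  have hPq : ∀ g, P g + q = fun x => g (e x) := fun g => hqq _
  have hScard : S.card = Fintype.card (F × ZMod 2) ^ 2 := by
    have h1 : P '' (S : Set (F × ZMod 2 → ZMod 2)) = C := by
      ext f
      simp only [Set.mem_image, Finset.mem_coe, hmemS]
      constructor
      · rintro ⟨g, hg, rfl⟩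
        exact hg
      · intro hf
        obtain ⟨g, rfl⟩ := hPsurj f
        exact ⟨g, hf, rfl⟩
    have h2 := Set.ncard_image_of_injective (S : Set (F × ZMod 2 → ZMod 2)) hPinj
    rw [h1, Set.ncard_coe_finset, hcard] at h2
    rw [← h2, hV, ← pow_mul]
    congr 1
    omega
  have hS1 : ∀ f ∈ S, (fun x => f x + 1) ∈ S := by
    intro f hf
    rw [hmemS] at hf ⊢
    have h1 := hcompl _ hf
    have h2 : (fun x => P f x + 1) = P (fun x => f x + 1) := by
      funext x
      simp only [P, Pi.add_apply]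
      ring
    rwa [h2] at h1
  have hup : ∀ f ∈ S, ∀ g ∈ S, g ≠ f → ∑ x, sg (f x + g x) ≤ 2 ^ m := by
    intro f hf g hg hne
    rw [hmemS] at hf hg
    have h1 := hdist _ hf _ hg fun he => hne (hPinj he.symm)
    rw [tsub_le_iff_right] at h1
    have h2 : (2 : ℤ) ^ (2 * m - 1) ≤ (hammingDist (P f) (P g) : ℤ) + 2 ^ (m - 1) := by
      exact_mod_cast h1
    have h3 := sum_sg_dist' (P f) (P g)
    have h4 : ∑ x, sg (P f x + P g x) = ∑ x, sg (f x + g x) := by
      rw [← Equiv.sum_comp e.toEquiv fun x => sg (f x + g x)]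
      refine Finset.sum_congr rfl fun x _ => ?_
      congr 1
      simp only [P, Pi.add_apply, LinearEquiv.coe_toEquiv]
      have := z2_add_self (q x)
      linear_combination this
    have hpow : (2 : ℤ) ^ (2 * m - 1) * 2 = 2 ^ (2 * m) := by
      rw [← pow_succ]
      congr 1
      omega
    have hpow2 : (2 : ℤ) ^ (m - 1) * 2 = 2 ^ m := by
      rw [← pow_succ]
      congr 1
      omega
    have h5 : Fintype.card (Fin (2 * m) → ZMod 2) = 2 ^ (2 * m) := by simp
    rw [h4, h5] at h3
    push_cast at h3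
    rw [h3]
    linarith
  have hd : ∀ f ∈ S, ∀ g ∈ S, g ≠ f → g ≠ (fun x => f x + 1) →
      (∑ x, sg (f x + g x)) ^ 2 ≤ (Fintype.card (F × ZMod 2) : ℤ) := by
    intro f hf g hg hne hne'
    have h1 := hup f hf g hg hne
    have h2 := hup _ (hS1 f hf) g hg hne'
    have h3 : ∑ x, sg (f x + 1 + g x) = -∑ x, sg (f x + g x) := by
      rw [← Finset.sum_neg_distrib]
      refine Finset.sum_congr rfl fun x _ => ?_
      have : ∀ s t : ZMod 2, sg (s + 1 + t) = -sg (s + t) := by decide
      exact this _ _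
    rw [h3] at h2
    have h4 : (∑ x, sg (f x + g x)) ^ 2 ≤ ((2 : ℤ) ^ m) ^ 2 := sq_le_sq' (by linarith) h1
    rw [hV]
    push_cast
    calc (∑ x, sg (f x + g x)) ^ 2 ≤ ((2 : ℤ) ^ m) ^ 2 := h4
      _ = 2 ^ (2 * m) := by ring
  -- membership in `K`
  have hKP : ∀ g, P g + q ∈ K ↔ ∃ u : F, Aff (g + kf m u) := by
    intro g
    rw [hPq, hK]
    refine exists_congr fun u => ?_
    rw [mem_RM_one]
    constructor
    · intro h1
      have h2 := aff_comp (e := e.symm) h1
      have h3 : (fun z => ((fun x => g (e x)) + fun x => kf m u (e x)) (e.symm z)) =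
          g + kf m u := by
        funext z
        simp
      rwa [h3] at h2
    · intro h1
      exact aff_comp (e := e) h1
  have hU' : ∀ f ∈ S, ∀ u, Aff (f + kf m u) → ∀ a, Aff a → f + a ∈ S := by
    intro f hf u hu a ha
    rw [hmemS] at hf ⊢
    rw [hPadd]
    exact hU _ hf ((hKP f).2 ⟨u, hu⟩) _ (mem_RM_one.2 (aff_comp (e := e) ha))
  let h' : F × ZMod 2 → ZMod 2 := fun z => (q + h) (e.symm z)
  have hquad : ∀ g, P g + h ∈ RM 2 (2 * m) ↔ Quad (g + h') := by
    intro g
    rw [mem_RM_two]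
    have h3 : (fun z => (P g + h) (e.symm z)) = g + h' := by
      funext z
      simp only [P, h', Pi.add_apply, LinearEquiv.apply_symm_apply]
      ring
    have h4 : (fun x => (g + h') (e x)) = P g + h := by
      funext x
      simp only [P, h', Pi.add_apply, LinearEquiv.symm_apply_apply]
      ring
    constructor
    · intro h1
      have h2 := quad_comp (e := e.symm) h1
      rwa [h3] at h2
    · intro h1
      have h2 := quad_comp (e := e) h1
      rwa [h4] at h2
  have hh' : ∀ f ∈ S, (∃ u, Aff (f + kf m u)) ∨ Quad (f + h') := by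
    intro f hf
    rcases hh _ ((hmemS f).1 hf) with h1 | h1
    · exact Or.inl ((hKP f).1 h1)
    · exact Or.inr ((hquad f).1 h1)
  rcases core hm hk S hScard hS1 hd hU' h' hh' with h1 | h1
  · left
    intro f
    obtain ⟨g, rfl⟩ := hPsurj f
    rw [hKP, ← h1 g, hmemS]
  · right
    intro f hf
    obtain ⟨g, rfl⟩ := hPsurj f
    exact (hquad g).2 (h1 g ((hmemS g).2 hf))

end Pool.Agent.KrdSw
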