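import Pool.Agent.Krd.Defs

/-!
# A function that is not quadratic has a cubic iterated derivative

`T` below is its trilinear form; it vanishes where the second derivatives of `h` are constant.
-/

set_option autoImplicit false
set_option linter.unusedSectionVars false

namespace Pool.Agent.KrdSw

open Pool.Agent.Krd

variable {V : Type*} [AddCommGroup V] [Module (ZMod 2) V] [Fintype V] [DecidableEq V]

/-- all fourth derivatives vanish -/
def Cub (g : V → ZMod 2) : Prop := ∀ a b c d x : V, D a (D b (D c (D d g))) x = 0

theorem exists_cub_aux (n : ℕ) : ∀ h : V → ZMod 2, ¬ Quad h →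
    Fintype.card V ≤ n + {v : V | ∀ x, D v h x = 0}.ncard →
    ∃ g : V → ZMod 2, Cub g ∧ ¬ Quad g ∧
      ∀ a b, (∀ x, D a (D b h) x = D a (D b h) 0) → ∀ x, D a (D b g) x = D a (D b g) 0 := by
  induction n with
  | zero =>
    intro h hq hn
    exfalso
    apply hq
    have h1 : {v : V | ∀ x, D v h x = 0} = Set.univ := by
      apply Set.eq_of_subset_of_ncard_le (Set.subset_univ _)
      rw [Set.ncard_univ, Nat.card_eq_fintype_card]
      omega
    intro a b c x
    have h2 : ∀ y, D c h y = 0 := by
      have : c ∈ {v : V | ∀ x, D v h x = 0} := by rw [h1]; trivial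
      exact this
    simp [D_apply] at h2 ⊢
    rw [h2, h2, h2, h2]
    decide
  | succ n ih =>
    intro h hq hn
    by_cases hc : Cub h
    · exact ⟨h, hc, hq, fun a b H => H⟩
    · simp only [Cub] at hc
      push Not at hc
      obtain ⟨a, b, c, d, x, hx⟩ := hc
      have hq' : ¬ Quad (D d h) := fun H => hx (H a b c x)
      have hlt : {v : V | ∀ x, D v h x = 0}.ncard < {v : V | ∀ x, D v (D d h) x = 0}.ncard := by
        apply Set.ncard_lt_ncard
        · refine ⟨?_, ?_⟩
          · intro v hv y
            have hv' : ∀ x, D v h x = 0 := hv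
            rw [D_comm, D_apply, hv', hv', add_zero]
          · intro hsub
            have hd : d ∈ {v : V | ∀ x, D v (D d h) x = 0} := fun y => D_self d h y
            have hd' : ∀ x, D d h x = 0 := hsub hd
            apply hq'
            intro a b c x
            simp only [D_apply a, D_apply b, D_apply c, hd']
            decide
        · exact Set.toFinite _
      obtain ⟨g, hg1, hg2, hg3⟩ := ih (D d h) hq' (by omega)
      refine ⟨g, hg1, hg2, fun a b H => hg3 a b ?_⟩
      have hz : ∀ x, D a (D b (D d h)) x = 0 := by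
        intro x
        have e : D a (D b (D d h)) = D d (D a (D b h)) := by
          rw [D_comm b d, D_comm a d]
        rw [e, D_apply, H x, H (x + d)]
        exact z2_add_self _
      intro x
      rw [hz, hz]

theorem exists_cub {h : V → ZMod 2} (hq : ¬ Quad h) :
    ∃ g : V → ZMod 2, Cub g ∧ ¬ Quad g ∧
      ∀ a b, (∀ x, D a (D b h) x = D a (D b h) 0) → ∀ x, D a (D b g) x = D a (D b g) 0 :=
  exists_cub_aux (Fintype.card V) h hq (Nat.le_add_right _ _)

/-- The trilinear form of a cubic function. -/
def T (g : V → ZMod 2) (a b c : V) : ZMod 2 := D a (D b (D c g)) 0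

theorem T_const {g : V → ZMod 2} (hg : Cub g) (a b c x : V) : D a (D b (D c g)) x = T g a b c := by
  have h := hg x a b c 0
  rw [D_apply, zero_add] at h
  have h2 := z2_add_self (T g a b c)
  unfold T at h2 ⊢
  linear_combination h - h2

theorem T_add {g : V → ZMod 2} (hg : Cub g) (a a' b c : V) :
    T g (a + a') b c = T g a b c + T g a' b c := by
  have h : T g (a + a') b c = D (a + a') (D b (D c g)) 0 := rfl
  rw [h, D_add_dir, T_const hg, T_const hg]

theorem T_swap12 (g : V → ZMod 2) (a b c : V) : T g a b c = T g b a c := by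
  unfold T
  rw [D_comm]

theorem T_swap23 (g : V → ZMod 2) (a b c : V) : T g a b c = T g a c b := by
  unfold T
  rw [D_comm b c]

theorem T_self (g : V → ZMod 2) (a c : V) : T g a a c = 0 := by
  unfold T
  exact D_self a _ 0

theorem T_zero_of_const {g : V → ZMod 2} {a b : V}
    (h : ∀ x, D a (D b g) x = D a (D b g) 0) (c : V) : T g a b c = 0 := by
  have e : T g a b c = D c (D a (D b g)) 0 := by
    unfold T
    rw [D_comm b c, D_comm a c]
  rw [e, D_apply, zero_add, h c]
  exact z2_add_self _

theorem quad_of_T {g : V → ZMod 2} (hg : Cub g) (h : ∀ a b c, T g a b c = 0) : Quad g := by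
  intro a b c x
  rw [T_const hg, h]

/-- The form `(x, y) ↦ T (i x) (i y) v` as a bilinear form. -/
def Tbil {W : Type*} [AddCommGroup W] [Module (ZMod 2) W] {g : V → ZMod 2} (hg : Cub g)
    (i : W →ₗ[ZMod 2] V) (v : V) : W →ₗ[ZMod 2] W →ₗ[ZMod 2] ZMod 2 :=
  LinearMap.mk₂ (ZMod 2) (fun x y => T g (i x) (i y) v)
    (fun x x' y => by rw [map_add, T_add hg])
    (fun c x y => by
      rcases z2_cases c with rfl | rfl
      · rw [zero_smul, zero_smul, map_zero]
        unfold T
        exact D_zero _ 0
      · rw [one_smul, one_smul])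
    (fun x y y' => by
      rw [map_add, T_swap12, T_add hg, T_swap12 g (i y), T_swap12 g (i y')])
    (fun c x y => by
      rcases z2_cases c with rfl | rfl
      · rw [zero_smul, zero_smul, map_zero, T_swap12]
        unfold T
        exact D_zero _ 0
      · rw [one_smul, one_smul])

theorem Tbil_apply {W : Type*} [AddCommGroup W] [Module (ZMod 2) W] {g : V → ZMod 2} (hg : Cub g)
    (i : W →ₗ[ZMod 2] V) (v : V) (x y : W) : Tbil hg i v x y = T g (i x) (i y) v := rfl

end Pool.Agent.KrdSw
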