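import Pool.Agent.KrdSw.LemP
import Pool.Agent.Krd.Defs

/-!
# The Kerdock functions and their bilinear forms
-/

set_option autoImplicit false
set_option linter.unusedSectionVars false
set_option linter.style.haveILetI false

namespace Pool.Agent.KrdSw

open Pool.Agent.Krd Finset

variable {F : Type*} [Field F] [Fintype F] [Algebra (ZMod 2) F]

/-- The function `f_u` of the problem on `F × F_2`, `F` the field with `2 ^ (2 * m - 1)` elements. -/
noncomputable def kf (m : ℕ) (u : F) (z : F × ZMod 2) : ZMod 2 :=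
  ∑ i ∈ Finset.Icc 1 (m - 1), Algebra.trace (ZMod 2) F ((u * z.1) ^ (2 ^ i + 1)) +
    z.2 * Algebra.trace (ZMod 2) F (u * z.1)

/-- The bilinear form of `f_u`. -/
noncomputable def B (u : F) (a b : F × ZMod 2) : ZMod 2 :=
  Algebra.trace (ZMod 2) F (u * a.1) * Algebra.trace (ZMod 2) F (u * b.1) +
    Algebra.trace (ZMod 2) F (u * a.1 * (u * b.1)) +
    a.2 * Algebra.trace (ZMod 2) F (u * b.1) + b.2 * Algebra.trace (ZMod 2) F (u * a.1)

theorem tr_sq (a : F) : Algebra.trace (ZMod 2) F (a ^ 2) = Algebra.trace (ZMod 2) F a := by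
  haveI := charP2 F
  apply (algebraMap (ZMod 2) F).injective
  have h1 := FiniteField.algebraMap_trace_eq_sum_pow (ZMod 2) F a
  have h2 := FiniteField.algebraMap_trace_eq_sum_pow (ZMod 2) F (a ^ 2)
  rw [Nat.card_zmod] at h1 h2
  have h3 : (algebraMap (ZMod 2) F (Algebra.trace (ZMod 2) F a)) ^ 2 =
      algebraMap (ZMod 2) F (Algebra.trace (ZMod 2) F (a ^ 2)) := by
    rw [h1, h2, sum_pow_char]
    refine Finset.sum_congr rfl fun i _ => ?_
    rw [← pow_mul, ← pow_mul, mul_comm]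
  rw [← h3, ← map_pow]
  congr 1
  have : ∀ t : ZMod 2, t ^ 2 = t := by decide
  exact this _

theorem tr_pow (a : F) (j : ℕ) :
    Algebra.trace (ZMod 2) F (a ^ (2 ^ j)) = Algebra.trace (ZMod 2) F a := by
  induction j with
  | zero => rw [pow_zero, pow_one]
  | succ j ih => rw [pow_succ, pow_mul, tr_sq, ih]

theorem tr_mul_sum (X Y : F) : ∑ d ∈ range (Module.finrank (ZMod 2) F),
    Algebra.trace (ZMod 2) F (X * Y ^ (2 ^ d)) =
      Algebra.trace (ZMod 2) F X * Algebra.trace (ZMod 2) F Y := by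
  have h := FiniteField.algebraMap_trace_eq_sum_pow (ZMod 2) F Y
  rw [Nat.card_zmod] at h
  rw [← map_sum, ← Finset.mul_sum, ← h, mul_comm X, ← Algebra.smul_def, map_smul, smul_eq_mul,
    mul_comm]

theorem tr_refl {k i : ℕ} (hk : Module.finrank (ZMod 2) F = k) (hi : i ≤ k) (X Y : F) :
    Algebra.trace (ZMod 2) F (X ^ (2 ^ i) * Y) =
      Algebra.trace (ZMod 2) F (X * Y ^ (2 ^ (k - i))) := by
  rw [← tr_pow (X ^ (2 ^ i) * Y) (k - i), mul_pow, ← pow_mul, ← pow_add]
  have h1 : i + (k - i) = k := by omega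
  rw [h1]
  have h2 : X ^ (2 ^ k) = X := by
    rw [← hk, ← card_eq]
    exact FiniteField.pow_card X
  rw [h2]

theorem sum_pairs {m : ℕ} (hm : 1 ≤ m) (φ : ℕ → ZMod 2) :
    ∑ i ∈ Finset.Icc 1 (m - 1), (φ (2 * m - 1 - i) + φ i) = ∑ d ∈ range (2 * m - 1), φ d + φ 0 := by
  obtain ⟨M, rfl⟩ : ∃ M, m = M + 1 := ⟨m - 1, by omega⟩
  have e1 : 2 * (M + 1) - 1 = 2 * M + 1 := by omega
  have e2 : M + 1 - 1 = M := rfl
  rw [e1, e2, Finset.sum_add_distrib]
  have h1 : ∑ i ∈ Finset.Icc 1 M, φ (2 * M + 1 - i) = ∑ d ∈ Finset.Icc (M + 1) (2 * M), φ d := by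
    refine Finset.sum_nbij' (fun i => 2 * M + 1 - i) (fun i => 2 * M + 1 - i) ?_ ?_ ?_ ?_ ?_
    · intro i hi
      rw [Finset.mem_Icc] at hi ⊢
      omega
    · intro i hi
      rw [Finset.mem_Icc] at hi ⊢
      omega
    · intro i hi
      rw [Finset.mem_Icc] at hi
      omega
    · intro i hi
      rw [Finset.mem_Icc] at hi
      omega
    · intro i _
      rfl
  have h2 : range (2 * M + 1) = insert 0 (Finset.Icc 1 M ∪ Finset.Icc (M + 1) (2 * M)) := by
    ext d
    simp only [Finset.mem_range, Finset.mem_insert, Finset.mem_union, Finset.mem_Icc]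
    omega
  rw [h1, h2, Finset.sum_insert (by simp), Finset.sum_union]
  · have := z2_add_self (φ 0)
    linear_combination -this
  · rw [Finset.disjoint_left]
    intro d hd hd'
    rw [Finset.mem_Icc] at hd hd'
    omega

theorem sum_forms {m : ℕ} (hm : 1 ≤ m) (hk : Module.finrank (ZMod 2) F = 2 * m - 1) (X Y : F) :
    ∑ i ∈ Finset.Icc 1 (m - 1), (Algebra.trace (ZMod 2) F (X ^ (2 ^ i) * Y) +
      Algebra.trace (ZMod 2) F (Y ^ (2 ^ i) * X)) =
      Algebra.trace (ZMod 2) F X * Algebra.trace (ZMod 2) F Y +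
        Algebra.trace (ZMod 2) F (X * Y) := by
  have h := sum_pairs hm fun d => Algebra.trace (ZMod 2) F (X * Y ^ (2 ^ d))
  rw [← hk, tr_mul_sum, pow_zero, pow_one, hk] at h
  rw [← h]
  refine Finset.sum_congr rfl fun i hi => ?_
  rw [Finset.mem_Icc] at hi
  rw [tr_refl hk (by omega) X Y, mul_comm (Y ^ (2 ^ i)) X]

theorem kf_DD {m : ℕ} (hm : 1 ≤ m) (hk : Module.finrank (ZMod 2) F = 2 * m - 1) (u : F)
    (a b z : F × ZMod 2) : D a (D b (kf m u)) z = B u a b := by
  haveI := charP2 F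
  have h2 : (2 : F) = 0 := by exact_mod_cast CharP.cast_eq_zero F 2
  have hterm : ∀ i : ℕ, Algebra.trace (ZMod 2) F ((u * z.1) ^ (2 ^ i + 1)) +
      Algebra.trace (ZMod 2) F ((u * (z + b).1) ^ (2 ^ i + 1)) +
      (Algebra.trace (ZMod 2) F ((u * (z + a).1) ^ (2 ^ i + 1)) +
      Algebra.trace (ZMod 2) F ((u * (z + a + b).1) ^ (2 ^ i + 1))) =
      Algebra.trace (ZMod 2) F ((u * a.1) ^ (2 ^ i) * (u * b.1)) +
      Algebra.trace (ZMod 2) F ((u * b.1) ^ (2 ^ i) * (u * a.1)) := by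
    intro i
    simp only [← map_add]
    congr 1
    simp only [Prod.fst_add, mul_add, pow_succ _ (2 ^ i), add_pow_char_pow]
    linear_combination (2 * ((u * z.1) ^ (2 ^ i) * (u * z.1)) + (u * z.1) ^ (2 ^ i) * (u * b.1) +
      (u * b.1) ^ (2 ^ i) * (u * z.1) + (u * b.1) ^ (2 ^ i) * (u * b.1) +
      (u * z.1) ^ (2 ^ i) * (u * a.1) + (u * a.1) ^ (2 ^ i) * (u * z.1) +
      (u * a.1) ^ (2 ^ i) * (u * a.1)) * h2
  have hsum := sum_forms (F := F) hm hk (u * a.1) (u * b.1)
  have h3 : D a (D b (kf m u)) z =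
      ∑ i ∈ Finset.Icc 1 (m - 1), (Algebra.trace (ZMod 2) F ((u * a.1) ^ (2 ^ i) * (u * b.1)) +
      Algebra.trace (ZMod 2) F ((u * b.1) ^ (2 ^ i) * (u * a.1))) +
      (a.2 * Algebra.trace (ZMod 2) F (u * b.1) + b.2 * Algebra.trace (ZMod 2) F (u * a.1)) := by
    rw [← Finset.sum_congr rfl fun i _ => hterm i]
    simp only [D, kf, Finset.sum_add_distrib, Prod.snd_add, Prod.fst_add, mul_add, map_add]
    have c2 : (2 : ZMod 2) = 0 := rfl
    linear_combination (2 * (z.2 * Algebra.trace (ZMod 2) F (u * z.1)) +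
      z.2 * Algebra.trace (ZMod 2) F (u * b.1) + z.2 * Algebra.trace (ZMod 2) F (u * a.1) +
      b.2 * Algebra.trace (ZMod 2) F (u * z.1) + b.2 * Algebra.trace (ZMod 2) F (u * b.1) +
      a.2 * Algebra.trace (ZMod 2) F (u * z.1) + a.2 * Algebra.trace (ZMod 2) F (u * a.1)) * c2
  rw [h3, hsum, B]
  ring

theorem kf_quad {m : ℕ} (hm : 1 ≤ m) (hk : Module.finrank (ZMod 2) F = 2 * m - 1) (u : F) :
    Quad (kf m u) := by
  intro a b c x
  have : D a (D b (D c (kf m u))) = D a (D b (D c (kf m u))) := rfl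
  rw [D_apply, kf_DD hm hk, kf_DD hm hk]
  exact z2_add_self _

theorem B_inj {u v : F} (h : ∀ a b, B u a b = B v a b) : u = v := by
  have h1 : u - v = 0 := by
    apply trace_nondeg
    intro y
    have h2 := h (0, 1) (y, 0)
    simp only [B, mul_zero, map_zero, zero_mul, one_mul, zero_add, add_zero] at h2
    rw [sub_mul, map_sub, h2, sub_self]
  exact sub_eq_zero.1 h1

theorem sum_sg_tr {z : F} (hz : z ≠ 0) : ∑ c : F, sg (Algebra.trace (ZMod 2) F (c * z)) = 0 := by
  obtain ⟨c₀, h₀⟩ : ∃ c₀ : F, Algebra.trace (ZMod 2) F (c₀ * z) ≠ 0 := by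
    by_contra hcon
    push Not at hcon
    apply hz
    apply trace_nondeg
    intro y
    rw [mul_comm]
    exact hcon y
  have h₁ := (z2_cases (Algebra.trace (ZMod 2) F (c₀ * z))).resolve_left h₀
  have h2 : ∑ c : F, sg (Algebra.trace (ZMod 2) F ((c + c₀) * z)) =
      ∑ c : F, sg (Algebra.trace (ZMod 2) F (c * z)) :=
    Equiv.sum_comp (Equiv.addRight c₀) fun c : F => sg (Algebra.trace (ZMod 2) F (c * z))
  have h3 : ∀ c : F, sg (Algebra.trace (ZMod 2) F ((c + c₀) * z)) =
      -sg (Algebra.trace (ZMod 2) F (c * z)) := by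
    intro c
    rw [add_mul, map_add, sg_add, h₁, sg_one]
    ring
  simp_rw [h3] at h2
  rw [Finset.sum_neg_distrib] at h2
  omega

/-- The sum over the four lifts of `(x, y)`, `x * y = c ^ 2`. -/
theorem four_lifts (μ : F → ℤ) {x y c : F} (hxy : x * y = c ^ 2)
    (h : ∀ s t : ZMod 2, ∑ u, μ u * sg (B u (x, s) (y, t)) = 0) :
    ∑ u, μ u * sg (Algebra.trace (ZMod 2) F (u * c)) = 0 := by
  have key : ∀ α β γ : ZMod 2, sg (α * β + γ + 0 * β + 0 * α) + sg (α * β + γ + 0 * β + 1 * α) +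
      sg (α * β + γ + 1 * β + 0 * α) - sg (α * β + γ + 1 * β + 1 * α) = 2 * sg γ := by
    decide
  have h1 : ∀ u : F, Algebra.trace (ZMod 2) F (u * x * (u * y)) =
      Algebra.trace (ZMod 2) F (u * c) := by
    intro u
    rw [← tr_sq (u * c)]
    congr 1
    linear_combination u ^ 2 * hxy
  have h2 : ∑ u, μ u * (2 * sg (Algebra.trace (ZMod 2) F (u * c))) = 0 := by
    have h3 : ∀ u : F, μ u * (2 * sg (Algebra.trace (ZMod 2) F (u * c))) =
        μ u * sg (B u (x, 0) (y, 0)) + μ u * sg (B u (x, 0) (y, 1)) +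
        μ u * sg (B u (x, 1) (y, 0)) - μ u * sg (B u (x, 1) (y, 1)) := by
      intro u
      rw [← key (Algebra.trace (ZMod 2) F (u * x)) (Algebra.trace (ZMod 2) F (u * y))]
      simp only [B, h1]
      ring
    rw [Finset.sum_congr rfl fun u _ => h3 u, Finset.sum_sub_distrib, Finset.sum_add_distrib,
      Finset.sum_add_distrib, h, h, h, h]
    norm_num
  have h4 : ∑ u, μ u * (2 * sg (Algebra.trace (ZMod 2) F (u * c))) =
      2 * ∑ u, μ u * sg (Algebra.trace (ZMod 2) F (u * c)) := by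
    rw [Finset.mul_sum]
    exact Finset.sum_congr rfl fun u _ => by ring
  rw [h4] at h2
  omega

/-- If all nontrivial Fourier coefficients of `μ` vanish then `μ` is constant. -/
theorem const_of_fourier (μ : F → ℤ)
    (h : ∀ c : F, c ≠ 0 → ∑ u, μ u * sg (Algebra.trace (ZMod 2) F (u * c)) = 0) (v w : F) :
    μ v = μ w := by
  classical
  have hinv : ∀ v : F, (Fintype.card F : ℤ) * μ v = ∑ u, μ u := by
    intro v
    have h1 : ∑ c : F, (∑ u, μ u * sg (Algebra.trace (ZMod 2) F (u * c))) *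
        sg (Algebra.trace (ZMod 2) F (v * c)) = ∑ u, μ u := by
      rw [Finset.sum_eq_single 0]
      · simp [sg_zero]
      · intro c _ hc
        rw [h c hc, zero_mul]
      · intro h0
        exact absurd (Finset.mem_univ _) h0
    rw [← h1]
    simp only [Finset.sum_mul]
    rw [Finset.sum_comm]
    have h2 : ∀ u : F, ∑ c : F, μ u * sg (Algebra.trace (ZMod 2) F (u * c)) *
        sg (Algebra.trace (ZMod 2) F (v * c)) = if u = v then (Fintype.card F : ℤ) * μ u else 0 := by
      intro u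
      have h3 : ∀ c : F, μ u * sg (Algebra.trace (ZMod 2) F (u * c)) *
          sg (Algebra.trace (ZMod 2) F (v * c)) =
          μ u * sg (Algebra.trace (ZMod 2) F (c * (u + v))) := by
        intro c
        rw [mul_assoc, ← sg_add, ← map_add]
        congr 3
        ring
      rw [Finset.sum_congr rfl fun c _ => h3 c, ← Finset.mul_sum]
      split_ifs with huv
      · subst huv
        have h4 : u + u = 0 := by
          haveI := charP2 F
          exact CharTwo.add_self_eq_zero u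
        rw [h4]
        simp [sg_zero, mul_comm]
      · rw [sum_sg_tr, mul_zero]
        intro h4
        apply huv
        haveI := charP2 F
        exact CharTwo.add_eq_zero.1 h4
    rw [Finset.sum_congr rfl fun u _ => h2 u, Finset.sum_ite_eq' Finset.univ v]
    simp
  have h5 : (Fintype.card F : ℤ) ≠ 0 := by
    have : 0 < Fintype.card F := Fintype.card_pos
    exact_mod_cast this.ne'
  exact mul_left_cancel₀ h5 (by rw [hinv v, hinv w])

end Pool.Agent.KrdSw
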