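import Mathlib

/-!
# Alternating forms on a field of characteristic two that vanish on the pairs `(x, c ^ 2 / x)`
-/

set_option autoImplicit false
set_option linter.unusedSectionVars false
set_option linter.style.haveILetI false

namespace Pool.Agent.KrdSw

open Finset

/-- The arithmetic of the exponents. -/
theorem expo {k i j p : ℕ} (hi : i < k) (hj : j < k) (hp1 : 1 ≤ p) (hp : p < k)
    (h : (2 ^ k - 1) ∣ (2 ^ i - 1) * 2 ^ j + (2 ^ k - 2 ^ p)) : i = p ∧ j = 0 := by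
  have hZ : ((2 : ℤ) ^ k - 1) ∣ ((2 : ℤ) ^ i - 1) * 2 ^ j + (2 ^ k - 2 ^ p) := by
    have h1 : ((2 ^ k - 1 : ℕ) : ℤ) = 2 ^ k - 1 := by
      rw [Nat.cast_sub Nat.one_le_two_pow]
      push_cast
      ring
    have h2 : (((2 ^ i - 1) * 2 ^ j + (2 ^ k - 2 ^ p) : ℕ) : ℤ) =
        ((2 : ℤ) ^ i - 1) * 2 ^ j + (2 ^ k - 2 ^ p) := by
      rw [Nat.cast_add, Nat.cast_mul, Nat.cast_sub Nat.one_le_two_pow,
        Nat.cast_sub (Nat.pow_le_pow_right (by norm_num) hp.le)]
      push_cast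
      ring
    rw [← h1, ← h2]
    exact_mod_cast h
  obtain ⟨r, hr, hrk, hr0⟩ : ∃ r, ((2 : ℤ) ^ k - 1) ∣ 2 ^ (i + j) - 2 ^ r ∧ r < k ∧
      (j = 0 → r = i) := by
    by_cases hij : i + j < k
    · exact ⟨i + j, by simp, hij, by rintro rfl; rfl⟩
    · refine ⟨i + j - k, ⟨2 ^ (i + j - k), ?_⟩, by omega, by omega⟩
      have : (2 : ℤ) ^ (i + j) = 2 ^ (i + j - k) * 2 ^ k := by
        rw [← pow_add]
        congr 1
        omega
      rw [this]
      ring
  have hD : ((2 : ℤ) ^ k - 1) ∣ 2 ^ r + 1 - 2 ^ p - 2 ^ j := by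
    have h3 : (2 : ℤ) ^ r + 1 - 2 ^ p - 2 ^ j =
        (((2 : ℤ) ^ i - 1) * 2 ^ j + (2 ^ k - 2 ^ p)) - (2 ^ (i + j) - 2 ^ r) - (2 ^ k - 1) := by
      rw [pow_add]
      ring
    rw [h3]
    exact dvd_sub (dvd_sub hZ hr) dvd_rfl
  obtain ⟨k', rfl⟩ : ∃ k', k = k' + 1 := ⟨k - 1, by omega⟩
  have b1 : (2 : ℤ) ^ r ≤ 2 ^ k' := pow_le_pow_right₀ (by norm_num) (by omega)
  have b2 : (2 : ℤ) ^ p ≤ 2 ^ k' := pow_le_pow_right₀ (by norm_num) (by omega)
  have b3 : (2 : ℤ) ^ j ≤ 2 ^ k' := pow_le_pow_right₀ (by norm_num) (by omega)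
  have b4 : (1 : ℤ) ≤ 2 ^ r := one_le_pow₀ (by norm_num)
  have b5 : (2 : ℤ) ≤ 2 ^ p := by
    calc (2 : ℤ) = 2 ^ 1 := by norm_num
      _ ≤ 2 ^ p := pow_le_pow_right₀ (by norm_num) hp1
  have b6 : (1 : ℤ) ≤ 2 ^ j := one_le_pow₀ (by norm_num)
  have h4 : (2 : ℤ) ^ r + 1 - 2 ^ p - 2 ^ j = 0 := by
    apply Int.eq_zero_of_abs_lt_dvd hD
    rw [abs_lt, pow_succ]
    constructor <;> linarith
  have h5 : 2 ^ r + 1 = 2 ^ p + 2 ^ j := by
    have : (2 : ℤ) ^ r + 1 = 2 ^ p + 2 ^ j := by linarith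
    exact_mod_cast this
  rcases Nat.eq_zero_or_pos j with hj0 | hj0
  · subst hj0
    rw [pow_zero] at h5
    have h6 : 2 ^ r = 2 ^ p := by omega
    have h7 : r = p := Nat.pow_right_injective le_rfl h6
    exact ⟨by rw [← hr0 rfl, h7], rfl⟩
  · exfalso
    have e1 : 2 ∣ 2 ^ p := dvd_pow_self 2 (by omega)
    have e2 : 2 ∣ 2 ^ j := dvd_pow_self 2 (by omega)
    have e3 : 4 ≤ 2 ^ p + 2 ^ j := by
      have f1 : 2 ≤ 2 ^ p := Nat.le_of_dvd (by positivity) e1
      have f2 : 2 ≤ 2 ^ j := Nat.le_of_dvd (by positivity) e2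
      omega
    rcases Nat.eq_zero_or_pos r with hr1 | hr1
    · subst hr1
      omega
    · have e4 : 2 ∣ 2 ^ r := dvd_pow_self 2 (by omega)
      omega

variable {K : Type*} [Field K] [Fintype K] [Algebra (ZMod 2) K]

theorem charP2 (K : Type*) [Field K] [Algebra (ZMod 2) K] : CharP K 2 :=
  charP_of_injective_algebraMap (algebraMap (ZMod 2) K).injective 2

theorem card_eq : Fintype.card K = 2 ^ Module.finrank (ZMod 2) K := by
  rw [Module.card_eq_pow_finrank (K := ZMod 2) (V := K), ZMod.card]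

/-- The powers of the Frobenius map. -/
def frobL (K : Type*) [Field K] [Algebra (ZMod 2) K] (i : ℕ) : K →ₗ[ZMod 2] K where
  toFun x := x ^ (2 ^ i)
  map_add' x y := by
    haveI := charP2 K
    exact add_pow_char_pow x y 2 i
  map_smul' c x := by
    have hc : c = 0 ∨ c = 1 := by revert c; decide
    rcases hc with rfl | rfl
    · simp
    · simp

theorem frobL_apply (i : ℕ) (x : K) : frobL K i x = x ^ (2 ^ i) := rfl

/-- Linearised polynomials. -/
noncomputable def psi (K : Type*) [Field K] [Algebra (ZMod 2) K] (k : ℕ) :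
    (Fin k → K) →ₗ[ZMod 2] (K →ₗ[ZMod 2] K) where
  toFun l := ∑ i : Fin k, (LinearMap.mulLeft (ZMod 2) (l i)) ∘ₗ frobL K i
  map_add' l l' := by
    rw [← Finset.sum_add_distrib]
    refine Finset.sum_congr rfl fun i _ => ?_
    ext x
    simp [add_mul]
  map_smul' c l := by
    rw [Finset.smul_sum]
    refine Finset.sum_congr rfl fun i _ => ?_
    ext x
    simp

theorem psi_apply (k : ℕ) (l : Fin k → K) (x : K) :
    psi K k l x = ∑ i : Fin k, l i * x ^ (2 ^ (i : ℕ)) := by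
  simp [psi, frobL]

theorem psi_injective {k : ℕ} (hk : Module.finrank (ZMod 2) K = k) :
    Function.Injective (psi K k) := by
  classical
  rw [injective_iff_map_eq_zero]
  intro l hl
  let P : Polynomial K := ∑ i : Fin k, Polynomial.C (l i) * Polynomial.X ^ (2 ^ (i : ℕ))
  have hdeg : P.natDegree < Fintype.card K := by
    rw [card_eq, hk]
    rw [Nat.lt_iff_le_pred (by positivity)]
    refine Polynomial.natDegree_sum_le_of_forall_le _ _ fun i _ => ?_
    refine (Polynomial.natDegree_C_mul_X_pow_le _ _).trans ?_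
    have := Nat.pow_lt_pow_right (a := 2) (by norm_num) i.2
    omega
  have hP : P = 0 := by
    refine Polynomial.eq_zero_of_natDegree_lt_card_of_eval_eq_zero' P Finset.univ ?_
      (by rwa [Finset.card_univ])
    intro x _
    have := LinearMap.congr_fun hl x
    rw [psi_apply, LinearMap.zero_apply] at this
    simp only [P, Polynomial.eval_finsetSum, Polynomial.eval_mul, Polynomial.eval_C,
      Polynomial.eval_pow, Polynomial.eval_X]
    exact this
  funext p
  have h1 : P.coeff (2 ^ (p : ℕ)) = l p := by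
    simp only [P, Polynomial.finsetSum_coeff, Polynomial.coeff_C_mul, Polynomial.coeff_X_pow]
    rw [Finset.sum_eq_single p]
    · simp
    · intro b _ hb
      rw [if_neg, mul_zero]
      intro h
      exact hb (Fin.ext (Nat.pow_right_injective le_rfl h).symm)
    · intro h
      exact absurd (Finset.mem_univ _) h
  rw [← h1, hP]
  simp

theorem psi_surjective {k : ℕ} (hk : Module.finrank (ZMod 2) K = k) :
    Function.Surjective (psi K k) := by
  have h : Module.finrank (ZMod 2) (Fin k → K) =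
      Module.finrank (ZMod 2) (K →ₗ[ZMod 2] K) := by
    rw [Module.finrank_pi_fintype, Module.finrank_linearMap]
    simp [hk]
  exact (LinearMap.injective_iff_surjective_of_finrank_eq_finrank h).1 (psi_injective hk)

theorem trace_nondeg {a : K} (h : ∀ y, Algebra.trace (ZMod 2) K (a * y) = 0) : a = 0 :=
  (traceForm_nondegenerate (ZMod 2) K).1 a h

theorem lemP (β : K →ₗ[ZMod 2] K →ₗ[ZMod 2] ZMod 2) (halt : ∀ x, β x x = 0)
    (h : ∀ x : K, x ≠ 0 → β x x⁻¹ = 0) : β = 0 := by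
  classical
  haveI := charP2 K
  have hnd := traceForm_nondegenerate (ZMod 2) K
  let L : K →ₗ[ZMod 2] K :=
    ((LinearMap.BilinForm.toDual (Algebra.traceForm (ZMod 2) K) hnd).symm : _ →ₗ[ZMod 2] K) ∘ₗ β
  have hL : ∀ x y, Algebra.trace (ZMod 2) K (L x * y) = β x y := by
    intro x y
    exact LinearMap.BilinForm.apply_toDual_symm_apply (hB := hnd) (β x) y
  obtain ⟨k, hk⟩ : ∃ k, Module.finrank (ZMod 2) K = k := ⟨_, rfl⟩
  obtain ⟨l, hl⟩ := psi_surjective hk L
  have hkpos : 0 < k := by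
    rw [← hk]
    exact Module.finrank_pos
  have hLx : ∀ x, L x = ∑ i : Fin k, l i * x ^ (2 ^ (i : ℕ)) := by
    intro x
    rw [← hl, psi_apply]
  have hunit : ∀ x : Kˣ, ∑ j ∈ range k, ∑ i : Fin k,
      l i ^ (2 ^ j) * (x : K) ^ ((2 ^ (i : ℕ) - 1) * 2 ^ j) = 0 := by
    intro x
    have h1 := h x x.ne_zero
    rw [← hL] at h1
    have h2 := FiniteField.algebraMap_trace_eq_sum_pow (ZMod 2) K (L x * (x : K)⁻¹)
    rw [h1, map_zero, hk, Nat.card_zmod] at h2
    rw [h2]
    refine Finset.sum_congr rfl fun j _ => ?_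
    have h3 : L x * (x : K)⁻¹ = ∑ i : Fin k, l i * (x : K) ^ (2 ^ (i : ℕ) - 1) := by
      rw [hLx, Finset.sum_mul]
      refine Finset.sum_congr rfl fun i _ => ?_
      rw [mul_assoc]
      congr 1
      rw [mul_inv_eq_iff_eq_mul₀ x.ne_zero, ← pow_succ]
      congr 1
      have := Nat.one_le_two_pow (n := (i : ℕ))
      omega
    rw [h3, sum_pow_char_pow]
    refine Finset.sum_congr rfl fun i _ => ?_
    rw [mul_pow, ← pow_mul]
  have hzero : ∀ p : Fin k, 1 ≤ (p : ℕ) → l p = 0 := by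
    intro p hp
    have h1 : ∑ x : Kˣ, (∑ j ∈ range k, ∑ i : Fin k,
        l i ^ (2 ^ j) * (x : K) ^ ((2 ^ (i : ℕ) - 1) * 2 ^ j)) * (x : K) ^ (2 ^ k - 2 ^ (p : ℕ)) =
        0 := by
      refine Finset.sum_eq_zero fun x _ => ?_
      rw [hunit, zero_mul]
    have h2 : ∑ x : Kˣ, (∑ j ∈ range k, ∑ i : Fin k,
        l i ^ (2 ^ j) * (x : K) ^ ((2 ^ (i : ℕ) - 1) * 2 ^ j)) * (x : K) ^ (2 ^ k - 2 ^ (p : ℕ)) =
        ∑ j ∈ range k, ∑ i : Fin k, l i ^ (2 ^ j) *
          ∑ x : Kˣ, ((x : K) ^ ((2 ^ (i : ℕ) - 1) * 2 ^ j + (2 ^ k - 2 ^ (p : ℕ)))) := by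
      simp only [Finset.sum_mul, Finset.mul_sum]
      rw [Finset.sum_comm]
      refine Finset.sum_congr rfl fun j _ => ?_
      rw [Finset.sum_comm]
      refine Finset.sum_congr rfl fun i _ => Finset.sum_congr rfl fun x _ => ?_
      rw [pow_add]
      ring
    rw [h2, Finset.sum_eq_single 0, Finset.sum_eq_single p] at h1
    · rw [FiniteField.sum_pow_units, card_eq, hk, if_pos] at h1
      · rw [pow_zero, pow_one] at h1
        simpa using h1
      · rw [pow_zero, mul_one]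
        have e1 := Nat.one_le_two_pow (n := (p : ℕ))
        have e2 := Nat.pow_le_pow_right (n := 2) (by norm_num) p.2.le
        have : 2 ^ (p : ℕ) - 1 + (2 ^ k - 2 ^ (p : ℕ)) = 2 ^ k - 1 := by omega
        rw [this]
    · intro i _ hi
      rw [FiniteField.sum_pow_units, card_eq, hk, if_neg, mul_zero]
      intro hdvd
      exact hi (Fin.ext (expo i.2 hkpos hp p.2 hdvd).1)
    · intro h0
      exact absurd (Finset.mem_univ _) h0
    · intro j hj hj0
      refine Finset.sum_eq_zero fun i _ => ?_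
      rw [FiniteField.sum_pow_units, card_eq, hk, if_neg, mul_zero]
      intro hdvd
      exact hj0 (expo i.2 (Finset.mem_range.1 hj) hp p.2 hdvd).2
    · intro h0
      exact absurd (Finset.mem_range.2 hkpos) h0
  have hL0 : ∀ x, L x = l ⟨0, hkpos⟩ * x := by
    intro x
    rw [hLx, Finset.sum_eq_single (⟨0, hkpos⟩ : Fin k)]
    · simp
    · intro i _ hi
      rw [hzero i, zero_mul]
      rcases Nat.eq_zero_or_pos (i : ℕ) with h0 | h0
      · exact absurd (Fin.ext h0) hi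
      · exact h0
    · intro h0
      exact absurd (Finset.mem_univ _) h0
  have hl0 : l ⟨0, hkpos⟩ = 0 := by
    apply trace_nondeg
    intro y
    obtain ⟨x, rfl⟩ : ∃ x : K, x ^ 2 = y := by
      have hinj : Function.Injective (fun x : K => x ^ 2) := by
        intro x y hxy
        exact frobenius_inj K 2 hxy
      exact (Finite.surjective_of_injective hinj) y
    rw [← halt x, ← hL, hL0]
    congr 1
    ring
  refine LinearMap.ext fun x => LinearMap.ext fun y => ?_
  rw [← hL, hL0, hl0, zero_mul, zero_mul, map_zero]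
  rfl

theorem lemPc (β : K →ₗ[ZMod 2] K →ₗ[ZMod 2] ZMod 2) (halt : ∀ x, β x x = 0) {c : K}
    (hc : c ≠ 0) (h : ∀ x : K, x ≠ 0 → x ≠ c → β x (c ^ 2 * x⁻¹) = 0) : β = 0 := by
  have h' : ∀ x : K, x ≠ 0 → β x (c ^ 2 * x⁻¹) = 0 := by
    intro x hx
    by_cases hxc : x = c
    · subst hxc
      have : x ^ 2 * x⁻¹ = x := by
        field_simp
      rw [this, halt]
    · exact h x hx hxc
  let m := LinearMap.mulLeft (ZMod 2) c
  have h1 := lemP ((β ∘ₗ m).compl₂ m) (fun x => halt _) (fun x hx => by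
    have h2 := h' (c * x) (mul_ne_zero hc hx)
    have h3 : c ^ 2 * (c * x)⁻¹ = c * x⁻¹ := by
      field_simp
    rw [h3] at h2
    exact h2)
  refine LinearMap.ext fun x => LinearMap.ext fun y => ?_
  have h2 := LinearMap.congr_fun (LinearMap.congr_fun h1 (c⁻¹ * x)) (c⁻¹ * y)
  have h3 : ((β ∘ₗ m).compl₂ m) (c⁻¹ * x) (c⁻¹ * y) = β x y := by
    simp [m, hc]
  rw [h3] at h2
  exact h2

end Pool.Agent.KrdSw
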