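import Pool.Agent.KrdSw.Field
import Pool.Agent.KrdSw.Cub
import Pool.Agent.KrdIso.Design
import Pool.Agent.KrdIso.Form

/-!
# The Kerdock code plus one further class modulo the quadratic functions
-/

set_option autoImplicit false
set_option linter.unusedSectionVars false
set_option linter.style.haveILetI false

namespace Pool.Agent.KrdSw

open Pool.Agent.Krd Finset

variable {F : Type*} [Field F] [Fintype F] [DecidableEq F] [Algebra (ZMod 2) F]

theorem lift1 {g : F × ZMod 2 → ZMod 2} (hg : Cub g) (x : F) (s : ZMod 2) (b c : F × ZMod 2) :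
    T g (x, s) b c = T g (x, 0) b c + s * T g (0, 1) b c := by
  rcases z2_cases s with rfl | rfl
  · rw [zero_mul, add_zero]
  · rw [one_mul, ← T_add hg]
    congr 1
    simp

theorem lift2 {g : F × ZMod 2 → ZMod 2} (hg : Cub g) (y : F) (t : ZMod 2) (a c : F × ZMod 2) :
    T g a (y, t) c = T g a (y, 0) c + t * T g a (0, 1) c := by
  rw [T_swap12, lift1 hg, T_swap12 g (y, 0), T_swap12 g (0, 1)]

theorem lift3 {g : F × ZMod 2 → ZMod 2} (hg : Cub g) (z : F) (r : ZMod 2) (a b : F × ZMod 2) :
    T g a b (z, r) = T g a b (z, 0) + r * T g a b (0, 1) := by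
  rw [T_swap23, lift2 hg, T_swap23 g a (z, 0), T_swap23 g a (0, 1)]

/-- The algebraic part: a trilinear form with enough zeros vanishes. -/
theorem quad_of_zeros {g : F × ZMod 2 → ZMod 2} (hg : Cub g) {c : F} (hc : c ≠ 0)
    (hz : ∀ x : F, x ≠ 0 → x ≠ c →
      ∃ s t : ZMod 2, ∀ z, T g (x, s) (c ^ 2 * x⁻¹, t) z = 0) : Quad g := by
  have hω : Tbil hg (LinearMap.inl (ZMod 2) F (ZMod 2)) (0, 1) = 0 := by
    refine lemPc _ (fun x => ?_) hc fun x hx hxc => ?_
    · rw [Tbil_apply]
      exact T_self _ _ _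
    · obtain ⟨s, t, h⟩ := hz x hx hxc
      have h1 := h (0, 1)
      rw [lift1 hg, lift2 hg, lift2 hg (a := (0, 1)), T_swap23 g (0, 1) (c ^ 2 * x⁻¹, 0),
        T_self, T_self, T_swap12 g (x, 0) (0, 1), T_swap23 g (0, 1) (x, 0), T_self] at h1
      rw [Tbil_apply]
      simpa using h1
  have hω' : ∀ x y : F, T g (x, 0) (y, 0) (0, 1) = 0 := by
    intro x y
    exact LinearMap.congr_fun (LinearMap.congr_fun hω x) y
  have hτ : ∀ z : F, Tbil hg (LinearMap.inl (ZMod 2) F (ZMod 2)) (z, 0) = 0 := by
    intro z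
    refine lemPc _ (fun x => ?_) hc fun x hx hxc => ?_
    · rw [Tbil_apply]
      exact T_self _ _ _
    · obtain ⟨s, t, h⟩ := hz x hx hxc
      have h1 := h (z, 0)
      have e1 : T g (0, 1) (c ^ 2 * x⁻¹, 0) (z, 0) = 0 := by
        rw [T_swap12, T_swap23]
        exact hω' _ _
      have e2 : T g (x, 0) (0, 1) (z, 0) = 0 := by
        rw [T_swap23]
        exact hω' _ _
      rw [lift1 hg, lift2 hg, lift2 hg (a := (0, 1)), e1, e2, T_self] at h1
      rw [Tbil_apply]
      simpa using h1
  have hτ' : ∀ x y z : F, T g (x, 0) (y, 0) (z, 0) = 0 := by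
    intro x y z
    exact LinearMap.congr_fun (LinearMap.congr_fun (hτ z) x) y
  refine quad_of_T hg ?_
  rintro ⟨x, s⟩ ⟨y, t⟩ ⟨z, r⟩
  have f1 : ∀ b c : F, T g (0, 1) (b, 0) (c, 0) = 0 := by
    intro b c
    rw [T_swap12, T_swap23]
    exact hω' _ _
  have f2 : ∀ a c : F, T g (a, 0) (0, 1) (c, 0) = 0 := by
    intro a c
    rw [T_swap23]
    exact hω' _ _
  have f3 : ∀ a : F × ZMod 2, T g a (0, 1) (0, 1) = 0 := by
    intro a
    rw [T_swap12, T_swap23, T_self]
  have f4 : ∀ b : F × ZMod 2, T g (0, 1) b (0, 1) = 0 := by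
    intro b
    rw [T_swap23, T_self]
  rw [lift1 hg, lift2 hg, lift2 hg (a := (0, 1)), lift3 hg z r (x, 0) (y, 0),
    lift3 hg z r (x, 0) (0, 1), lift3 hg z r (0, 1) (y, 0), T_self, hτ', hω', f1, f2, f3, f4]
  ring

theorem core {m : ℕ} (hm : 2 ≤ m) (hk : Module.finrank (ZMod 2) F = 2 * m - 1)
    (S : Finset (F × ZMod 2 → ZMod 2)) (hS : S.card = Fintype.card (F × ZMod 2) ^ 2)
    (hc : ∀ f ∈ S, (fun x => f x + 1) ∈ S)
    (hd : ∀ f ∈ S, ∀ g ∈ S, g ≠ f → g ≠ (fun x => f x + 1) →
      (∑ x, sg (f x + g x)) ^ 2 ≤ Fintype.card (F × ZMod 2))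
    (hU : ∀ f ∈ S, ∀ u, Aff (f + kf m u) → ∀ a, Aff a → f + a ∈ S)
    (h : F × ZMod 2 → ZMod 2)
    (hh : ∀ f ∈ S, (∃ u, Aff (f + kf m u)) ∨ Quad (f + h)) :
    (∀ f, f ∈ S ↔ ∃ u, Aff (f + kf m u)) ∨ ∀ f ∈ S, Quad (f + h) := by
  classical
  have hm1 : 1 ≤ m := by omega
  by_cases hq : Quad h
  · right
    intro f hf
    rcases hh f hf with ⟨u, hu⟩ | h1
    · have e : f + h = f + kf m u + kf m u + h := by
        rw [add_assoc f, fun_add_self, add_zero]
      rw [e]
      exact (hu.quad.add (kf_quad hm1 hk u)).add hq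
    · exact h1
  obtain ⟨g, hg1, hg2, hg3⟩ := exists_cub hq
  -- uniqueness of the class
  have huniq : ∀ f : F × ZMod 2 → ZMod 2, ∀ u v, Aff (f + kf m u) → Aff (f + kf m v) → u = v := by
    intro f u v hu hv
    apply B_inj
    intro a b
    have h1 := (hu.add hv) a b 0
    have e : f + kf m u + (f + kf m v) = kf m u + kf m v := by
      have := fun_add_self f
      calc f + kf m u + (f + kf m v) = (f + f) + (kf m u + kf m v) := by abel
        _ = kf m u + kf m v := by rw [this, zero_add]
    rw [e, D_add, D_add, Pi.add_apply, kf_DD hm1 hk, kf_DD hm1 hk] at h1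
    have h2 := z2_add_self (B v a b)
    linear_combination h1 - h2
  have hval : ∀ f : F × ZMod 2 → ZMod 2, ∀ u, Aff (f + kf m u) → ∀ a b y,
      D a (D b f) y = B u a b := by
    intro f u hu a b y
    have h1 := hu a b y
    rw [D_add, D_add, Pi.add_apply, kf_DD hm1 hk] at h1
    have h2 := z2_add_self (B u a b)
    linear_combination h1 - h2
  let N : F → Finset (F × ZMod 2 → ZMod 2) := fun u => S.filter fun f => Aff (f + kf m u)
  let S1 := S.filter fun f => ∃ u, Aff (f + kf m u)
  have hS1 : S1 = Finset.univ.biUnion N := by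
    ext f
    simp only [S1, N, Finset.mem_filter, Finset.mem_biUnion, Finset.mem_univ, true_and]
    constructor
    · rintro ⟨hf, u, hu⟩
      exact ⟨u, hf, hu⟩
    · rintro ⟨u, hf, hu⟩
      exact ⟨hf, u, hu⟩
  have hdisj : (↑(Finset.univ : Finset F) : Set F).PairwiseDisjoint N := by
    intro u _ v _ huv
    rw [Function.onFun, Finset.disjoint_left]
    intro f hf hf'
    exact huv (huniq f u v (Finset.mem_filter.1 hf).2 (Finset.mem_filter.1 hf').2)
  let μ : F → ℤ := fun u => ((N u).card : ℤ)
  have hE : ∀ a b : F × ZMod 2, a ≠ 0 → b ≠ 0 → a ≠ b →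
      (¬ ∀ x, D a (D b h) x = D a (D b h) 0) → ∑ u, μ u * sg (B u a b) = 0 := by
    intro a b ha hb hab hnc
    push Not at hnc
    obtain ⟨x, hx⟩ := hnc
    have hdes : ∀ y, ∑ f ∈ S, sg (D a (D b f) y) = 0 := by
      intro y
      have h1 := KrdIso.design S hS hc hd (x := y) (y := y + b) (z := y + a) (u := y + a + b)
        (by intro h; exact hb (left_eq_add.1 h)) (by intro h; exact hb (left_eq_add.1 h))
        (by rintro ⟨h, -⟩; exact ha (add_eq_left.1 h))
        (by rintro ⟨h, -⟩; exact hab (add_left_cancel h))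
      rw [← h1]
      refine Finset.sum_congr rfl fun f _ => ?_
      congr 1
      simp only [D]
      ring
    have hsplit : ∀ y, ∑ f ∈ S1, sg (D a (D b f) 0) + sg (D a (D b h) y) *
        ∑ f ∈ S.filter (fun f => ¬ ∃ u, Aff (f + kf m u)), sg (D a (D b (f + h)) 0) = 0 := by
      intro y
      rw [← hdes y, ← Finset.sum_filter_add_sum_filter_not S (fun f => ∃ u, Aff (f + kf m u)),
        Finset.mul_sum]
      congr 1
      · refine Finset.sum_congr rfl fun f hf => ?_
        obtain ⟨u, hu⟩ := (Finset.mem_filter.1 hf).2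
        rw [hval f u hu, hval f u hu]
      · refine Finset.sum_congr rfl fun f hf => ?_
        have hf2 := Finset.mem_filter.1 hf
        have h3 : Quad (f + h) := (hh f hf2.1).resolve_left hf2.2
        rw [← sg_add]
        congr 1
        have h4 := h3 y a b 0
        rw [D_apply, zero_add, D_add, D_add, Pi.add_apply, Pi.add_apply] at h4
        rw [D_add, D_add, Pi.add_apply]
        have h5 := z2_add_self (D a (D b f) y)
        have h6 := z2_add_self (D a (D b h) y)
        linear_combination h4 - h5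
    have e0 := hsplit 0
    have ex := hsplit x
    have hsg : sg (D a (D b h) x) = -sg (D a (D b h) 0) := by
      have : ∀ s t : ZMod 2, s ≠ t → sg s = -sg t := by decide
      exact this _ _ hx
    rw [hsg] at ex
    have h7 : ∑ f ∈ S1, sg (D a (D b f) 0) = 0 := by linarith
    rw [hS1, Finset.sum_biUnion hdisj] at h7
    rw [← h7]
    refine Finset.sum_congr rfl fun u _ => ?_
    have h8 : ∀ f ∈ N u, sg (D a (D b f) 0) = sg (B u a b) := by
      intro f hf
      rw [hval f u (Finset.mem_filter.1 hf).2]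
    rw [Finset.sum_congr rfl h8, Finset.sum_const, nsmul_eq_mul]
  have hμ : ∀ c : F, c ≠ 0 → ∑ u, μ u * sg (Algebra.trace (ZMod 2) F (u * c)) = 0 := by
    intro c hc0
    by_contra hne
    apply hg2
    refine quad_of_zeros hg1 hc0 fun x hx hxc => ?_
    by_contra hcon
    push Not at hcon
    apply hne
    refine four_lifts μ (x := x) (y := c ^ 2 * x⁻¹) ?_ fun s t => ?_
    · field_simp
    · refine hE (x, s) (c ^ 2 * x⁻¹, t) ?_ ?_ ?_ ?_
      · intro h0
        exact hx (Prod.ext_iff.1 h0).1
      · intro h0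
        have h1 : c ^ 2 * x⁻¹ = 0 := (Prod.ext_iff.1 h0).1
        exact mul_ne_zero (pow_ne_zero 2 hc0) (inv_ne_zero hx) h1
      · intro h0
        have h1 : x = c ^ 2 * x⁻¹ := (Prod.ext_iff.1 h0).1
        have h2 : x ^ 2 = c ^ 2 := by
          field_simp at h1
          exact h1
        haveI := charP2 F
        exact hxc (frobenius_inj F 2 h2)
      · intro hconst
        obtain ⟨z, hz⟩ := hcon s t
        exact hz (T_zero_of_const (hg3 _ _ hconst) z)
  have hconst := const_of_fourier μ hμ
  by_cases h0 : (N 0).card = 0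
  · right
    intro f hf
    rcases hh f hf with ⟨u, hu⟩ | h1
    · exfalso
      have h2 : μ u = 0 := by rw [hconst u 0]; simp only [μ]; exact_mod_cast h0
      have h3 : (N u).card = 0 := by simp only [μ] at h2; exact_mod_cast h2
      rw [Finset.card_eq_zero] at h3
      have h4 : f ∈ N u := Finset.mem_filter.2 ⟨hf, hu⟩
      rw [h3] at h4
      simp at h4
    · exact h1
  · left
    have hmem : ∀ u, kf m u ∈ S := by
      intro u
      have h2 : (N u).card ≠ 0 := by
        intro h3
        apply h0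
        have h4 := hconst u 0
        simp only [μ] at h4
        rw [h3] at h4
        exact_mod_cast h4.symm
      obtain ⟨f, hf⟩ := Finset.card_pos.1 (Nat.pos_of_ne_zero h2)
      obtain ⟨hf1, hf2⟩ := Finset.mem_filter.1 hf
      have h5 := hU f hf1 u hf2 _ hf2
      have h6 : f + (f + kf m u) = kf m u := by
        rw [← add_assoc, fun_add_self, zero_add]
      rwa [h6] at h5
    have hAff0 : Aff (0 : F × ZMod 2 → ZMod 2) := fun a b x => by simp [D]
    have hall : ∀ u, ∀ a, Aff a → kf m u + a ∈ S := by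
      intro u a ha
      refine hU _ (hmem u) u ?_ a ha
      rw [fun_add_self]
      exact hAff0
    haveI : Finite ((F × ZMod 2) →ₗ[ZMod 2] ZMod 2) :=
      Finite.of_injective (fun l : (F × ZMod 2) →ₗ[ZMod 2] ZMod 2 =>
        (l : F × ZMod 2 → ZMod 2)) DFunLike.coe_injective
    haveI : Fintype ((F × ZMod 2) →ₗ[ZMod 2] ZMod 2) := Fintype.ofFinite _
    have hNcard : ∀ u, 2 * Fintype.card (F × ZMod 2) ≤ (N u).card := by
      intro u
      have hinj : Function.Injective
          (fun p : ((F × ZMod 2) →ₗ[ZMod 2] ZMod 2) × ZMod 2 => kf m u + fun x => p.1 x + p.2) := by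
        rintro ⟨l, c⟩ ⟨l', c'⟩ h
        have h' : ∀ x, l x + c = l' x + c' := by
          intro x
          have h1 := congrFun h x
          simp only [Pi.add_apply] at h1
          exact add_left_cancel h1
        have hcc : c = c' := by
          have h0 := h' 0
          rw [map_zero, map_zero, zero_add, zero_add] at h0
          exact h0
        subst hcc
        refine Prod.ext (LinearMap.ext fun x => add_right_cancel (h' x)) rfl
      have hle : (Finset.univ.image (fun p : ((F × ZMod 2) →ₗ[ZMod 2] ZMod 2) × ZMod 2 =>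
          kf m u + fun x => p.1 x + p.2)) ⊆ N u := by
        intro f hf
        obtain ⟨p, -, rfl⟩ := Finset.mem_image.1 hf
        have ha := KrdIso.aff_lin p.1 p.2
        refine Finset.mem_filter.2 ⟨hall u _ ha, ?_⟩
        have e : (kf m u + fun x => p.1 x + p.2) + kf m u = fun x => p.1 x + p.2 := by
          rw [add_comm, ← add_assoc, fun_add_self, zero_add]
        rw [e]
        exact ha
      have h1 := Finset.card_le_card hle
      rw [Finset.card_image_of_injective _ hinj, Finset.card_univ, Fintype.card_prod,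
        KrdIso.card_dual', ZMod.card] at h1
      omega
    have hS1card : S.card ≤ S1.card := by
      rw [hS1, Finset.card_biUnion (fun u hu v hv huv => hdisj hu hv huv)]
      have h1 : ∑ _u : F, 2 * Fintype.card (F × ZMod 2) ≤ ∑ u, (N u).card :=
        Finset.sum_le_sum fun u _ => hNcard u
      rw [Finset.sum_const, Finset.card_univ, smul_eq_mul] at h1
      have h2 : Fintype.card (F × ZMod 2) = Fintype.card F * 2 := by
        rw [Fintype.card_prod, ZMod.card]
      rw [hS]
      calc Fintype.card (F × ZMod 2) ^ 2 =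
            Fintype.card F * (2 * Fintype.card (F × ZMod 2)) := by rw [h2]; ring
        _ ≤ _ := h1
    have hS1eq : S1 = S := Finset.eq_of_subset_of_card_le (Finset.filter_subset _ _) hS1card
    intro f
    constructor
    · intro hf
      rw [← hS1eq] at hf
      exact (Finset.mem_filter.1 hf).2
    · rintro ⟨u, hu⟩
      have h1 := hall u _ hu
      have e : kf m u + (f + kf m u) = f := by
        rw [add_comm f, ← add_assoc, fun_add_self, zero_add]
      rwa [e] at h1

end Pool.Agent.KrdSw
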